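import Pool.Agent.WAP.StmtsT
import Pool.Agent.Helper32_WAP.Add

set_option autoImplicit false

/-!
# Row RG2 of part T: the region at the place 2 is relatively open in `U`
-/

namespace Pool.Agent.WAP.H12

open Classical

theorem big_mono {F : Type} [NormedField F] {d : F} {N N' : ℝ} (h : N' ≤ N) {p : Pt d}
    (hp : Big N p) : Big N' p := by
  rcases hp with hp | hp
  · exact Or.inl hp
  · exact Or.inr (lt_of_le_of_lt h hp)

/-- ultrametric: a small change does not change the norm -/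
theorem norm_eq_of {F : Type} [NormedField F] (hu : ∀ x y : F, ‖x + y‖ ≤ max ‖x‖ ‖y‖) {a b : F}
    (h : ‖a - b‖ < ‖b‖) : ‖a‖ = ‖b‖ := by
  apply le_antisymm
  · have h1 := hu (a - b) b
    rw [sub_add_cancel, max_eq_right h.le] at h1
    exact h1
  · have h1 := hu (b - a) a
    rw [sub_add_cancel, norm_sub_rev b a] at h1
    rcases le_max_iff.1 h1 with h2 | h2
    · exact absurd h2 (not_le.2 h)
    · exact h2

/-- coordinates of a nonzero point in `Big 1` -/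
theorem big_coord {F : Type} [NormedField F] {d : F} (hd : d ≠ 0) {P : Pt d} (hP : P ≠ 0)
    (hb : Big 1 P) : ‖d‖ < ‖cX P‖ ∧ cX P ≠ 0 ∧ cY P ≠ 0 := by
  have hd' : 0 < ‖d‖ := norm_pos_iff.2 hd
  have h1 : ‖d‖ < ‖cX P‖ := by
    rcases hb with h | h
    · exact absurd h hP
    · rw [norm_div, lt_div_iff₀ hd', one_mul] at h
      exact h
  have hX : cX P ≠ 0 := by
    intro h
    rw [h, norm_zero] at h1
    linarith
  refine ⟨h1, hX, fun hY => ?_⟩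
  have e := Pool.Agent.WAP.H32.eqn (P := P)
  rw [hY] at e
  have e2 : cX P * ((cX P - d) * (cX P + d)) = 0 := by linear_combination -e
  rcases mul_eq_zero.1 e2 with h | h
  · exact hX h
  rcases mul_eq_zero.1 h with h | h
  · have : cX P = d := sub_eq_zero.1 h
    rw [this] at h1
    exact lt_irrefl _ h1
  · have : cX P = -d := eq_neg_of_add_eq_zero_left h
    rw [this, norm_neg] at h1
    exact lt_irrefl _ h1

/-- a nonzero point of `Big 1` and its small translates -/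
theorem near {F : Type} [NormedField F] [Algebra GaussianInt F] (trx : TrxStmt) (hF : GoodF F)
    (hu : ∀ x y : F, ‖x + y‖ ≤ max ‖x‖ ‖y‖) {d : F} (hd : d ≠ 0) {R : Pt d} (hR : R ≠ 0)
    (hb : Big 1 R) : ∃ N : ℝ, ∀ p : Pt d, Big N p →
      R + p ≠ 0 ∧ Big 1 (R + p) ∧ ‖cz (R + p)‖ = ‖cz R‖ := by
  obtain ⟨h1, hX, hY⟩ := big_coord hd hR hb
  have hX' : 0 < ‖cX R‖ := norm_pos_iff.2 hX
  have hY' : 0 < ‖cY R‖ := norm_pos_iff.2 hY
  obtain ⟨N, hN⟩ := trx F hF d hd R hR (min ‖cX R‖ ‖cY R‖) (lt_min hX' hY')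
  refine ⟨N, fun p hp => ?_⟩
  obtain ⟨a1, a2, a3⟩ := hN p hp
  have b1 : ‖cX (R + p)‖ = ‖cX R‖ := norm_eq_of hu (lt_of_lt_of_le a2 (min_le_left _ _))
  have b2 : ‖cY (R + p)‖ = ‖cY R‖ := norm_eq_of hu (lt_of_lt_of_le a3 (min_le_right _ _))
  refine ⟨a1, Or.inr ?_, ?_⟩
  · have hd' : 0 < ‖d‖ := norm_pos_iff.2 hd
    rw [norm_div, b1, lt_div_iff₀ hd', one_mul]
    exact h1
  · unfold cz
    rw [norm_div, norm_div, b1, b2]

theorem rg2 (gdf : GdfStmt) (loc : LocStmt) (smn : SmnStmt) (trx : TrxStmt) : Rg2Stmt := by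
  intro F _ _ ϖ hϖ z hz
  obtain ⟨hU, d, P, Q, j, hd, hzk, hR1, hR0, hQ1, hcz⟩ := hz
  have hF : GoodF F := gdf F (Or.inl ⟨ϖ, hϖ⟩)
  have hQ0 : Q ≠ 0 := by
    rintro rfl
    apply hU.2
    rw [hzk]
    show cY P * cY (0 : Pt d) / d ^ 3 = 0
    rw [Pool.Agent.WAP.H32.cY_zero, mul_zero, zero_div]
  obtain ⟨N1, hN1⟩ := near trx hF hϖ.ultra hd hR0 hR1
  obtain ⟨N2, hN2⟩ := near trx hF hϖ.ultra hd hQ0 hQ1
  obtain ⟨N3, hN3⟩ := smn F hF d hd (2 ^ j) N1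
  rw [hzk] at hU
  obtain ⟨O, hO, hzO, hO2⟩ := loc F hF d hd P Q hU (max N3 N2)
  refine ⟨O, hO, by rw [hzk]; exact hzO, fun z1 hz1 hU1 => ?_⟩
  obtain ⟨p, q, hp, hq, hz1k⟩ := hO2 z1 hz1 hU1
  have hp' := hN3 p (big_mono (le_max_left _ _) hp)
  obtain ⟨c1, c2, c3⟩ := hN1 _ hp'
  obtain ⟨d1, d2, d3⟩ := hN2 q (big_mono (le_max_right _ _) hq)
  have hs : sm (2 ^ j) (P + p) = sm (2 ^ j) P + sm (2 ^ j) p := gsm_add _ _ _ _
  refine ⟨hU1, d, P + p, Q + q, j, hd, hz1k, ?_, ?_, d2, ?_⟩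
  · rw [hs]; exact c2
  · rw [hs]; exact c1
  · rw [hs, c3, d3]; exact hcz

end Pool.Agent.WAP.H12
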